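import Pool.Agent.H933.EP.Stm
import Pool.Agent.H271.LL.Clos

/-!
# Closed spectral subspaces under Domar's property of the resolvent (task P_clos2 of helper933)

Adapted from Pool/Agent/H271/LL/Clos.lean.
-/

set_option autoImplicit false

open MeasureTheory Metric Filter Topology Set
open scoped Real ENNReal

namespace Pool.Agent.H980.EP

open Pool.Agent.H933.LL Pool.Agent.H933.EP Pool.Agent.H271.LL

variable {X : Type} [NormedAddCommGroup X] [NormedSpace ℂ X]

/-- the main estimate: the local resolvent is bounded by a constant times the norm of the vector -/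
lemma loc_bound2 [CompleteSpace X] (T : X →L[ℂ] X) (hL : DomAll T) (r ρ : ℝ) (hρ : 0 < ρ) :
    ∃ C : ℝ, 0 < C ∧ ∀ (z₀ : ℂ) (U : Set ℂ) (f : ℂ → X) (x : X), IsOpen U → closedBall z₀ ρ ⊆ U →
      closedBall z₀ ρ ⊆ ball (0 : ℂ) r → DifferentiableOn ℂ f U →
      (∀ z ∈ U, z • f z - T (f z) = x) → ‖f z₀‖ ≤ C * ‖x‖ := by
  obtain ⟨hnull, hD⟩ := hL
  obtain ⟨C, hdom'⟩ := hD r (ρ ^ 2 * π) ρ (by positivity) hρ
  refine ⟨max C 1, lt_max_of_lt_right one_pos, ?_⟩
  intro z₀ U f x hU hB hB' hf hfe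
  have hz₀ : z₀ ∈ U := hB (mem_closedBall_self hρ.le)
  by_cases hx : x = 0
  · have h1 : f z₀ = 0 := by
      have h2 := loc_unique T hnull hU (f := f) (g := fun _ => 0) (x := x) hf.continuousOn
        continuousOn_const hfe (fun z _ => by simp [hx])
      exact h2 z₀ hz₀
    rw [h1, hx]
    simp
  have hxn : 0 < ‖x‖ := norm_pos_iff.mpr hx
  obtain ⟨ψ, hψ, hψf⟩ := exists_dual_vector'' ℂ (f z₀)
  have hg := hdom' (fun z => ((‖x‖ : ℝ) : ℂ)⁻¹ * ψ (f z)) U z₀ hU hB hB'
    ((ψ.differentiable.comp_differentiableOn hf).const_mul _) ?_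
  · simp only [norm_mul, norm_inv, Complex.norm_real, norm_norm] at hg
    rw [hψf] at hg
    have h2 : ‖x‖⁻¹ * ‖f z₀‖ ≤ C := by simpa using hg
    rw [inv_mul_le_iff₀ hxn] at h2
    have h3 : ‖x‖ * C ≤ ‖x‖ * max C 1 := mul_le_mul_of_nonneg_left (le_max_left _ _) hxn.le
    linarith [mul_comm (max C 1) ‖x‖]
  · have h1 : ∀ᵐ z ∂(volume : Measure ℂ), z ∉ spectrum ℂ T := by
      rw [ae_iff]
      simpa using hnull
    have hle : ∫⁻ z in ball z₀ ρ, ENNReal.ofReal ((‖((‖x‖ : ℝ) : ℂ)⁻¹ * ψ (f z)‖ /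
        (1 + ‖resolvent T z‖)) ^ 2) ≤ ∫⁻ _z in ball z₀ ρ, 1 := by
      apply lintegral_mono_ae
      filter_upwards [ae_restrict_mem measurableSet_ball, ae_restrict_of_ae h1] with z hz hzs
      have hzU : z ∈ U := hB (ball_subset_closedBall hz)
      have h2 : f z = resolvent T z x := eq_res T hzs (hfe z hzU)
      have h3 : ‖((‖x‖ : ℝ) : ℂ)⁻¹ * ψ (f z)‖ ≤ ‖resolvent T z‖ := by
        rw [norm_mul, norm_inv, Complex.norm_real, norm_norm, inv_mul_le_iff₀ hxn, h2]
        calc ‖ψ (resolvent T z x)‖ ≤ ‖ψ‖ * ‖resolvent T z x‖ := ψ.le_opNorm _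
          _ ≤ 1 * ‖resolvent T z x‖ := by gcongr
          _ = ‖resolvent T z x‖ := one_mul _
          _ ≤ ‖resolvent T z‖ * ‖x‖ := (resolvent T z).le_opNorm x
          _ = ‖x‖ * ‖resolvent T z‖ := mul_comm _ _
      have h0 : 0 ≤ ‖resolvent T z‖ := norm_nonneg _
      have h4 : ‖((‖x‖ : ℝ) : ℂ)⁻¹ * ψ (f z)‖ / (1 + ‖resolvent T z‖) ≤ 1 := by
        rw [div_le_one (by linarith)]
        linarith
      have h5 : (‖((‖x‖ : ℝ) : ℂ)⁻¹ * ψ (f z)‖ / (1 + ‖resolvent T z‖)) ^ 2 ≤ 1 :=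
        pow_le_one₀ (by positivity) h4
      exact ENNReal.ofReal_le_one.2 h5
    refine hle.trans ?_
    rw [lintegral_one, Measure.restrict_apply_univ, Complex.volume_ball,
      ENNReal.ofReal_mul (by positivity), ENNReal.ofReal_pow hρ.le]
    apply le_of_eq
    congr 1
    rw [← NNReal.coe_real_pi, ENNReal.ofReal_coe_nnreal]

/-- the spectral subspace is closed -/
lemma loc_closed2 [CompleteSpace X] (T : X →L[ℂ] X) (hL : DomAll T) (F : Set ℂ) (hF : IsClosed F) : IsClosed {x : X | LocSpec T F x} := by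
  have hnull := hL.1
  apply IsSeqClosed.isClosed
  intro x p hx hxp
  have hx' : ∀ n, LocSpec T F (x n) := hx
  choose f hf hfe using hx'
  -- local bounds
  have hloc : ∀ z₀ ∈ Fᶜ, ∃ ρ > 0, ∃ C > 0, ball z₀ ρ ⊆ Fᶜ ∧ ∀ z ∈ ball z₀ ρ, ∀ n m,
      ‖f n z - f m z‖ ≤ C * ‖x n - x m‖ := by
    intro z₀ hz₀
    obtain ⟨ε, hε, hεF⟩ := Metric.isOpen_iff.mp hF.isOpen_compl z₀ hz₀
    obtain ⟨C, hC, hb⟩ := loc_bound2 T hL (‖z₀‖ + ε) (ε / 3) (by positivity)
    refine ⟨ε / 3, by positivity, C, hC, ?_, ?_⟩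
    · exact (ball_subset_ball (by linarith)).trans hεF
    · intro z hz n m
      rw [mem_ball] at hz
      have hsub : closedBall z (ε / 3) ⊆ ball z₀ ε := by
        intro w hw
        rw [mem_closedBall] at hw
        rw [mem_ball]
        calc dist w z₀ ≤ dist w z + dist z z₀ := dist_triangle _ _ _
          _ < ε := by linarith
      apply hb z Fᶜ (fun w => f n w - f m w) (x n - x m) hF.isOpen_compl (hsub.trans hεF)
      · intro w hw
        have h1 := hsub hw
        rw [mem_ball, dist_eq_norm] at h1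
        rw [mem_ball_zero_iff]
        calc ‖w‖ = ‖z₀ + (w - z₀)‖ := by congr 1; ring
          _ ≤ ‖z₀‖ + ‖w - z₀‖ := norm_add_le _ _
          _ < ‖z₀‖ + ε := by linarith
      · exact (hf n).sub (hf m)
      · intro w hw
        rw [← hfe n w hw, ← hfe m w hw, smul_sub, map_sub]
        abel
  have hcau : CauchySeq x := hxp.cauchySeq
  have hpt : ∀ z ∈ Fᶜ, CauchySeq fun n => f n z := by
    intro z hz
    obtain ⟨ρ, hρ, C, hC, -, hb⟩ := hloc z hz
    rw [Metric.cauchySeq_iff] at hcau ⊢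
    intro ε hε
    obtain ⟨N, hN⟩ := hcau (ε / C) (by positivity)
    refine ⟨N, fun m hm n hn => ?_⟩
    have h1 := hb z (mem_ball_self hρ) m n
    have h2 := hN m hm n hn
    rw [dist_eq_norm] at h2 ⊢
    calc ‖f m z - f n z‖ ≤ C * ‖x m - x n‖ := h1
      _ < C * (ε / C) := by gcongr
      _ = ε := by field_simp
  have hlim : ∀ z : ℂ, ∃ y : X, z ∈ Fᶜ → Tendsto (fun n => f n z) atTop (𝓝 y) := by
    intro z
    by_cases hz : z ∈ Fᶜ
    · obtain ⟨y, hy⟩ := cauchySeq_tendsto_of_complete (hpt z hz)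
      exact ⟨y, fun _ => hy⟩
    · exact ⟨0, fun h => absurd h hz⟩
  choose g hg using hlim
  have hunif : TendstoLocallyUniformlyOn f g atTop Fᶜ := by
    rw [Metric.tendstoLocallyUniformlyOn_iff]
    intro ε hε z₀ hz₀
    obtain ⟨ρ, hρ, C, hC, hsub, hb⟩ := hloc z₀ hz₀
    refine ⟨ball z₀ ρ, mem_nhdsWithin_of_mem_nhds (ball_mem_nhds z₀ hρ), ?_⟩
    have h1 : Tendsto (fun n => C * ‖x n - p‖) atTop (𝓝 (C * 0)) := by
      apply Tendsto.const_mul
      have h2 := (hxp.sub_const p).norm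
      simpa using h2
    rw [mul_zero] at h1
    filter_upwards [h1.eventually_lt_const hε] with n hn z hz
    rw [dist_comm, dist_eq_norm]
    refine lt_of_le_of_lt ?_ hn
    have h3 : Tendsto (fun m => ‖f n z - f m z‖) atTop (𝓝 ‖f n z - g z‖) :=
      (tendsto_const_nhds.sub (hg z (hsub hz))).norm
    have h4 : Tendsto (fun m => C * ‖x n - x m‖) atTop (𝓝 (C * ‖x n - p‖)) :=
      ((tendsto_const_nhds.sub hxp).norm).const_mul C
    exact le_of_tendsto_of_tendsto' h3 h4 fun m => hb z hz n m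
  have hgd : DifferentiableOn ℂ g Fᶜ :=
    hunif.differentiableOn (Eventually.of_forall hf) hF.isOpen_compl
  refine ⟨g, hgd, ?_⟩
  intro z hz
  have h1 : Tendsto (fun n => z • f n z - T (f n z)) atTop (𝓝 (z • g z - T (g z))) :=
    ((hg z hz).const_smul z).sub ((T.continuous.tendsto _).comp (hg z hz))
  have h2 : Tendsto (fun n => z • f n z - T (f n z)) atTop (𝓝 p) := by
    apply hxp.congr
    intro n
    exact (hfe n z hz).symm
  exact tendsto_nhds_unique h1 h2

theorem p_clos2 : P_clos2 := by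
  intro X _ _ _ T hL
  refine ⟨?_, ?_, loc_spec T⟩
  · intro F hF
    refine ⟨Sp T F, mem_Sp T F, loc_closed2 T hL F hF, ?_, ?_⟩
    · intro Q hQ x hx
      exact loc_comm T Q hQ F hx
    · intro z hz y hy
      obtain ⟨f, hf, hfe⟩ := hy
      refine ⟨f z, ⟨loc_at T F hF hf hfe hz, hfe z hz⟩, ?_⟩
      rintro w ⟨hw, hwe⟩
      have h1 : w - f z = 0 := by
        apply loc_inj T hL.1 F hF (z₀ := z) ((Sp T F).sub_mem hw (loc_at T F hF hf hfe hz)) hz
        rw [smul_sub, map_sub]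
        have h2 := hfe z hz
        calc z • w - z • f z - (T w - T (f z)) = (z • w - T w) - (z • f z - T (f z)) := by abel
          _ = 0 := by rw [hwe, h2, sub_self]
      exact sub_eq_zero.mp h1
  · intro F F' x hF hF' hx hx'
    exact loc_inter T hL.1 hF hF' hx hx'

end Pool.Agent.H980.EP
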